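import Pool.Agent.W206.YP.Stm

/-!
Project YP, part TRN: the values isogenous to `j τ` depend only on `j τ`, and for a fixed degree
there are finitely many of them.
-/

set_option autoImplicit false

namespace Pool.Agent.W849.YP.TRN

open UpperHalfPlane H294ZP H294ZP.TDaux Polynomial

/-- The family of representatives of determinant `N`; the multiset of the values `j (h_k τ)`
depends only on `j τ`. -/
theorem fam (N : ℕ) (hN : 0 < N) : ∃ (ι : Type) (_ : Fintype ι) (_ : DecidableEq ι)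
    (a d : ι → ℕ) (b : ι → ℤ) (h : ι → ℍ → ℍ),
    (∀ k, 0 < a k ∧ 0 < d k ∧ a k * d k = N) ∧
    (∀ k τ, (h k τ : ℂ) * d k = a k * τ + b k) ∧
    (∀ (p q r s : ℤ), p * s - q * r = N → ∀ τ w : ℍ, (w : ℂ) * (r * τ + s) = p * τ + q →
      ∃ k, jj w = jj (h k τ)) ∧
    (∀ τ τ' : ℍ, jj τ = jj τ' →
      (∏ k, (X - C (jj (h k τ))) : ℂ[X]) = ∏ k, (X - C (jj (h k τ')))) := by
  have hA : TA := ⟨ta1.1, ta1.2, ta2⟩
  have hC : TC := tc
  have hB : TB := TBproof.tb hA hC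
  have hF : TF := TF676.tf ta1.1
  obtain ⟨ι, i1, i2, α, δ, β, h, h1, h2, h3, h4⟩ := hF N hN
  have hG : ∀ k, Lx N (fun τ => jj (h k τ)) := by
    intro k
    obtain ⟨ha, hd, had⟩ := h1 k
    have := hC.2.2.2.2 hA.2.1 hA.2.2 (α k) (δ k) (β k) ha hd (h k) (h2 k)
    rw [had] at this
    exact ⟨⟨_, _, this.1⟩, this.2⟩
  let F : ℍ → ℂ[X] := fun τ => ∏ k, (X - C (jj (h k τ)))
  have hco := coeff_prod hC hN (fun k τ => jj (h k τ)) hG Finset.univ
  have hinv : ∀ j, Inv (fun τ => (F τ).coeff j) := by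
    intro j p q r s hps τ w hw
    obtain ⟨σ, hσ⟩ := h3 p q r s hps τ w hw
    have : F w = F τ := by
      show ∏ k, (X - C (jj (h k w))) = ∏ k, (X - C (jj (h k τ)))
      rw [← Equiv.prod_comp σ (fun k => (X - C (jj (h k τ))))]
      exact Finset.prod_congr rfl fun k _ => by rw [hσ k]
    show (F w).coeff j = (F τ).coeff j
    rw [this]
  refine ⟨ι, i1, i2, α, δ, β, h, h1, h2, h4, ?_⟩
  intro τ τ' hτ
  show F τ = F τ'
  ext j
  obtain ⟨⟨m, A, hL⟩, hH⟩ := hco j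
  obtain ⟨P, -, hP2, -⟩ := hB N hN m A _ (hinv j) hH hL
  have e1 : (F τ).coeff j = P.eval (jj τ) := hP2 τ
  have e2 : (F τ').coeff j = P.eval (jj τ') := hP2 τ'
  rw [e1, e2, hτ]

theorem root_of {ι : Type} [Fintype ι] (u v : ι → ℂ)
    (huv : (∏ k, (X - C (u k)) : ℂ[X]) = ∏ k, (X - C (v k))) (k : ι) : ∃ m, v m = u k := by
  have h1 : (∏ k, (X - C (v k)) : ℂ[X]).eval (u k) = 0 := by
    rw [← huv, eval_prod]
    exact Finset.prod_eq_zero (Finset.mem_univ k) (by simp)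
  rw [eval_prod, Finset.prod_eq_zero_iff] at h1
  obtain ⟨m, -, hm⟩ := h1
  refine ⟨m, ?_⟩
  simp only [eval_sub, eval_X, eval_C] at hm
  exact (sub_eq_zero.1 hm).symm

theorem main : Pool.Agent.W206.YP.S_TRN := by
  refine ⟨?_, ?_⟩
  · intro τ τ' w' a b c d hτ hdet hw
    obtain ⟨N, hNdet⟩ : ∃ N : ℕ, (N : ℤ) = a * d - b * c := ⟨(a * d - b * c).toNat, by omega⟩
    have hN : 0 < N := by
      have : (0 : ℤ) < N := by rw [hNdet]; exact hdet
      exact_mod_cast this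
    obtain ⟨ι, _, _, α, δ, β, h, h1, h2, h4, h5⟩ := fam N hN
    obtain ⟨k, hk⟩ := h4 a b c d hNdet.symm τ' w' hw
    obtain ⟨m, hm⟩ := root_of (fun k => jj (h k τ')) (fun k => jj (h k τ)) (h5 τ' τ hτ.symm) k
    refine ⟨h m τ, α m, β m, 0, δ m, ?_, ?_, ?_⟩
    · rw [← hNdet, ← (h1 m).2.2]
      push_cast
      ring
    · have := h2 m τ
      push_cast
      rw [zero_mul, zero_add]
      exact this
    · rw [hk]
      exact hm
  · intro N y hN
    obtain ⟨ι, _, _, α, δ, β, h, h1, h2, h4, h5⟩ := fam N hN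
    by_cases hy : ∃ τ₀ : ℍ, jj τ₀ = y
    · obtain ⟨τ₀, hτ₀⟩ := hy
      refine (Set.finite_range (fun k => jj (h k τ₀))).subset ?_
      rintro x ⟨τ, w, a, b, c, d, hdet, hw, hx, hyτ⟩
      obtain ⟨k, hk⟩ := h4 a b c d hdet τ w hw
      obtain ⟨m, hm⟩ := root_of (fun k => jj (h k τ)) (fun k => jj (h k τ₀))
        (h5 τ τ₀ (by rw [hτ₀, hyτ])) k
      exact ⟨m, by rw [hx, hk]; exact hm⟩
    · have : {x : ℂ | Pool.Agent.W206.YP.IsoN N x y} = ∅ := by
        rw [Set.eq_empty_iff_forall_notMem]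
        rintro x ⟨τ, w, a, b, c, d, hdet, hw, hx, hyτ⟩
        exact hy ⟨τ, hyτ.symm⟩
      rw [this]
      exact Set.finite_empty

end Pool.Agent.W849.YP.TRN
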